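import Pool.Agent.Lib.MP_c91b70_al.NotComm
import Pool.Agent.Lib.MP_c91b70_al.QI

/-!
# A right-angled Coxeter group quasi-isometric but not commensurable to right-angled Artin groups

The right-angled Coxeter group of the pentagon blown up by three independent points is
quasi-isometric, by a bijection bilipschitz for the word metrics, to the right-angled Artin group of
the pentagon blown up by two independent points, and is not commensurable to any right-angled
Artin group.
-/

set_option autoImplicit false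

universe u

namespace Pool.Agent.Results.MP_c91b70_al.BlownUpPentagon

/-- The relators `s s` for the vertices `s`, and `s t s⁻¹ t⁻¹` for the edges `{s, t}`. -/
def racgRelators {V : Type u} (Γ : SimpleGraph V) : Set (FreeGroup V) :=
  {r | (∃ s, r = FreeGroup.of s * FreeGroup.of s) ∨
    ∃ s t, Γ.Adj s t ∧
      r = FreeGroup.of s * FreeGroup.of t * (FreeGroup.of s)⁻¹ * (FreeGroup.of t)⁻¹}

/-- The right-angled Coxeter group of the graph `Γ`. -/
abbrev RACG {V : Type u} (Γ : SimpleGraph V) : Type u := PresentedGroup (racgRelators Γ)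

/-- The relators `s t s⁻¹ t⁻¹` for the edges `{s, t}`. -/
def raagRelators {V : Type u} (Δ : SimpleGraph V) : Set (FreeGroup V) :=
  {r | ∃ s t, Δ.Adj s t ∧
    r = FreeGroup.of s * FreeGroup.of t * (FreeGroup.of s)⁻¹ * (FreeGroup.of t)⁻¹}

/-- The right-angled Artin group of the graph `Δ`. -/
abbrev RAAG {V : Type u} (Δ : SimpleGraph V) : Type u := PresentedGroup (raagRelators Δ)

/-- Two groups are commensurable if a finite-index subgroup of one is isomorphic to a finite-index
subgroup of the other. -/
def Commensurable (G : Type) (H : Type u) [Group G] [Group H] : Prop :=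
  ∃ (A : Subgroup G) (B : Subgroup H), A.FiniteIndex ∧ B.FiniteIndex ∧ Nonempty (A ≃* B)

/-- The word metric of the generating set `S`: the least length of a product of elements of `S` and
inverses of elements of `S` which is equal to `x⁻¹ * y`. -/
noncomputable def wordDist {G : Type} [Group G] (S : Set G) (x y : G) : ℕ :=
  sInf {n : ℕ | ∃ l : List G, (∀ s ∈ l, s ∈ S ∨ s⁻¹ ∈ S) ∧ l.prod = x⁻¹ * y ∧ l.length = n}

/-- The pentagon with each vertex replaced by `k` pairwise non-adjacent vertices. -/
def blowUp (k : ℕ) : SimpleGraph (Fin 5 × Fin k) :=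
  (SimpleGraph.cycleGraph 5).comap Prod.fst

/-! ### Presented groups -/

/-- Isomorphic presentations give isomorphic groups. -/
theorem exists_iso {V : Type u} {W : Type} (e : V ≃ W) (R : Set (FreeGroup V))
    (R' : Set (FreeGroup W))
    (h1 : ∀ r ∈ R, PresentedGroup.mk R' (FreeGroup.map e r) = 1)
    (h2 : ∀ r ∈ R', PresentedGroup.mk R (FreeGroup.map e.symm r) = 1) :
    ∃ φ : PresentedGroup R ≃* PresentedGroup R',
      ∀ v, φ (PresentedGroup.of v) = PresentedGroup.of (e v) := by
  have hl : ∀ {A : Type u} {B : Type} (f : A → B) (Q : Set (FreeGroup B)) (r : FreeGroup A),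
      FreeGroup.lift (fun v => (PresentedGroup.of (f v) : PresentedGroup Q)) r =
        PresentedGroup.mk Q (FreeGroup.map f r) := by
    intro A B f Q r
    have : FreeGroup.lift (fun v => (PresentedGroup.of (f v) : PresentedGroup Q)) =
        (PresentedGroup.mk Q).comp (FreeGroup.map f) := by
      apply FreeGroup.ext_hom
      intro a
      rw [FreeGroup.lift_apply_of, MonoidHom.comp_apply, FreeGroup.map.of]
      rfl
    rw [this]; rfl
  have hl' : ∀ {A : Type} {B : Type u} (f : A → B) (Q : Set (FreeGroup B)) (r : FreeGroup A),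
      FreeGroup.lift (fun v => (PresentedGroup.of (f v) : PresentedGroup Q)) r =
        PresentedGroup.mk Q (FreeGroup.map f r) := by
    intro A B f Q r
    have : FreeGroup.lift (fun v => (PresentedGroup.of (f v) : PresentedGroup Q)) =
        (PresentedGroup.mk Q).comp (FreeGroup.map f) := by
      apply FreeGroup.ext_hom
      intro a
      rw [FreeGroup.lift_apply_of, MonoidHom.comp_apply, FreeGroup.map.of]
      rfl
    rw [this]; rfl
  let f : PresentedGroup R →* PresentedGroup R' :=
    PresentedGroup.toGroup (f := fun v => PresentedGroup.of (e v)) (fun r hr => by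
      rw [hl e R' r]; exact h1 r hr)
  let g : PresentedGroup R' →* PresentedGroup R :=
    PresentedGroup.toGroup (f := fun w => PresentedGroup.of (e.symm w)) (fun r hr => by
      rw [hl' e.symm R r]; exact h2 r hr)
  have hf : ∀ v, f (PresentedGroup.of v) = PresentedGroup.of (e v) :=
    fun v => PresentedGroup.toGroup.of _
  have hg : ∀ w, g (PresentedGroup.of w) = PresentedGroup.of (e.symm w) :=
    fun w => PresentedGroup.toGroup.of _
  refine ⟨MonoidHom.toMulEquiv f g ?_ ?_, hf⟩
  · apply PresentedGroup.ext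
    intro v
    rw [MonoidHom.comp_apply, hf, hg, Equiv.symm_apply_apply]; rfl
  · apply PresentedGroup.ext
    intro w
    rw [MonoidHom.comp_apply, hg, hf, Equiv.apply_symm_apply]; rfl

/-- A word of length at most `N` is a product of at most `N` generators and inverses. -/
theorem dist_le_of_word {m : ℕ} {R : Set (FreeGroup (Fin m))} {V : Type}
    {R' : Set (FreeGroup V)} (e : V ≃ Fin m) (φ : PresentedGroup R' ≃* PresentedGroup R)
    (hφ : ∀ v, φ (PresentedGroup.of v) = PresentedGroup.of (e v))
    (x y : PresentedGroup R') (N : ℕ)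
    (h : ∃ w : FreeGroup (Fin m), PresentedGroup.mk R w = (φ x)⁻¹ * φ y ∧ w.toWord.length ≤ N) :
    wordDist (Set.range PresentedGroup.of) x y ≤ N := by
  obtain ⟨w, hw, hN⟩ := h
  refine le_trans (Nat.sInf_le ?_) hN
  refine ⟨w.toWord.map fun p => φ.symm (PresentedGroup.mk R (FreeGroup.mk [p])), ?_, ?_, ?_⟩
  · intro s hs
    obtain ⟨⟨a, b⟩, -, rfl⟩ := List.mem_map.1 hs
    have ha : φ.symm (PresentedGroup.of a) = PresentedGroup.of (e.symm a) := by
      rw [MulEquiv.symm_apply_eq, hφ, Equiv.apply_symm_apply]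
    cases b with
    | true => exact Or.inl ⟨e.symm a, ha.symm⟩
    | false =>
      right
      have : FreeGroup.mk [(a, false)] = (FreeGroup.of a)⁻¹ := by
        rw [FreeGroup.of, FreeGroup.inv_mk]; rfl
      rw [this, map_inv, map_inv, inv_inv]
      exact ⟨e.symm a, ha.symm⟩
  · have key : ∀ L : List (Fin m × Bool),
        (L.map fun p => φ.symm (PresentedGroup.mk R (FreeGroup.mk [p]))).prod =
          φ.symm (PresentedGroup.mk R (FreeGroup.mk L)) := by
      intro L
      induction L with
      | nil => simp [← FreeGroup.one_eq_mk]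
      | cons p L ih =>
        have hL : FreeGroup.mk (p :: L) = FreeGroup.mk [p] * FreeGroup.mk L := by
          rw [FreeGroup.mul_mk]; rfl
        rw [List.map_cons, List.prod_cons, ih, hL, map_mul, map_mul]
    rw [key, FreeGroup.mk_toWord, hw, map_mul, map_inv, MulEquiv.symm_apply_apply,
      MulEquiv.symm_apply_apply]
  · rw [List.length_map]

/-- A product of generators and inverses is a word. -/
theorem word_of_dist {m : ℕ} {R : Set (FreeGroup (Fin m))} {V : Type}
    {R' : Set (FreeGroup V)} (e : V ≃ Fin m) (φ : PresentedGroup R' ≃* PresentedGroup R)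
    (hφ : ∀ v, φ (PresentedGroup.of v) = PresentedGroup.of (e v))
    (x y : PresentedGroup R') :
    ∃ w : FreeGroup (Fin m), PresentedGroup.mk R w = (φ x)⁻¹ * φ y ∧
      w.toWord.length ≤ wordDist (Set.range PresentedGroup.of) x y := by
  classical
  have key : ∀ l : List (PresentedGroup R'),
      (∀ s ∈ l, s ∈ Set.range PresentedGroup.of ∨ s⁻¹ ∈ Set.range PresentedGroup.of) →
      ∃ w : FreeGroup (Fin m), PresentedGroup.mk R w = φ l.prod ∧
        w.toWord.length ≤ l.length := by
    intro l
    induction l with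
    | nil => intro _; exact ⟨1, by simp, by simp⟩
    | cons s l ih =>
      intro hl
      obtain ⟨w, hw, hn⟩ := ih fun t ht => hl t (List.mem_cons_of_mem _ ht)
      have hs : ∃ w' : FreeGroup (Fin m), PresentedGroup.mk R w' = φ s ∧ w'.norm ≤ 1 := by
        rcases hl s List.mem_cons_self with ⟨v, hv⟩ | ⟨v, hv⟩
        · exact ⟨FreeGroup.of (e v), by rw [← hv, hφ]; rfl, by simp⟩
        · refine ⟨(FreeGroup.of (e v))⁻¹, ?_, by simp⟩
          have h1 : s = (PresentedGroup.of v)⁻¹ := by rw [hv, inv_inv]
          rw [h1, map_inv, map_inv, hφ]; rfl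
      obtain ⟨w', hw', hn'⟩ := hs
      refine ⟨w' * w, by rw [map_mul, hw', hw, List.prod_cons, map_mul], ?_⟩
      have h1 := FreeGroup.norm_mul_le w' w
      rw [List.length_cons]
      unfold FreeGroup.norm at h1 hn'
      omega
  have hne : {n : ℕ | ∃ l : List (PresentedGroup R'),
      (∀ s ∈ l, s ∈ Set.range PresentedGroup.of ∨ s⁻¹ ∈ Set.range PresentedGroup.of) ∧
        l.prod = x⁻¹ * y ∧ l.length = n}.Nonempty := by
    obtain ⟨w, hw⟩ := PresentedGroup.mk_surjective R' (x⁻¹ * y)
    rw [← hw]
    refine ⟨_, w.toWord.map fun p => PresentedGroup.mk R' (FreeGroup.mk [p]), ?_, ?_, rfl⟩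
    · intro s hs
      obtain ⟨⟨a, b⟩, -, rfl⟩ := List.mem_map.1 hs
      cases b with
      | true => exact Or.inl ⟨a, rfl⟩
      | false =>
        right
        have : FreeGroup.mk [(a, false)] = (FreeGroup.of a)⁻¹ := by
          rw [FreeGroup.of, FreeGroup.inv_mk]; rfl
        rw [this, map_inv, inv_inv]
        exact ⟨a, rfl⟩
    · have key : ∀ L : List (V × Bool),
          (L.map fun p => PresentedGroup.mk R' (FreeGroup.mk [p])).prod =
            PresentedGroup.mk R' (FreeGroup.mk L) := by
        intro L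
        induction L with
        | nil => simp [← FreeGroup.one_eq_mk]
        | cons p L ih =>
          have hL : FreeGroup.mk (p :: L) = FreeGroup.mk [p] * FreeGroup.mk L := by
            rw [FreeGroup.mul_mk]; rfl
          rw [List.map_cons, List.prod_cons, ih, hL, map_mul]
      rw [key, FreeGroup.mk_toWord]
  obtain ⟨l, hl, hp, hn⟩ := Nat.sInf_mem hne
  obtain ⟨w, hw, hw'⟩ := key l hl
  refine ⟨w, by rw [hw, hp, map_mul, map_inv], ?_⟩
  rw [hn] at hw'
  exact hw'

/-! ### The two groups -/

/-- `st = ts` in the right-angled Coxeter group. -/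
theorem racg_comm {V : Type u} (Γ : SimpleGraph V) {s t : V} (h : Γ.Adj s t) :
    (PresentedGroup.of s : RACG Γ) * PresentedGroup.of t =
      PresentedGroup.of t * PresentedGroup.of s := by
  have h1 := PresentedGroup.one_of_mem (rels := racgRelators Γ)
    (x := FreeGroup.of s * FreeGroup.of t * (FreeGroup.of s)⁻¹ * (FreeGroup.of t)⁻¹)
    (Or.inr ⟨s, t, h, rfl⟩)
  rw [map_mul, map_mul, map_mul, map_inv, map_inv] at h1
  have h2 : (PresentedGroup.of s : RACG Γ) * PresentedGroup.of t * (PresentedGroup.of s)⁻¹ *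
    (PresentedGroup.of t)⁻¹ = 1 := h1
  rw [mul_inv_eq_one, mul_inv_eq_iff_eq_mul] at h2
  exact h2

theorem racg_sq {V : Type u} (Γ : SimpleGraph V) (s : V) :
    (PresentedGroup.of s : RACG Γ) * PresentedGroup.of s = 1 := by
  have h1 := PresentedGroup.one_of_mem (rels := racgRelators Γ)
    (x := FreeGroup.of s * FreeGroup.of s) (Or.inl ⟨s, rfl⟩)
  rw [map_mul] at h1
  exact h1

theorem raag_comm {V : Type u} (Γ : SimpleGraph V) {s t : V} (h : Γ.Adj s t) :
    (PresentedGroup.of s : RAAG Γ) * PresentedGroup.of t =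
      PresentedGroup.of t * PresentedGroup.of s := by
  have h1 := PresentedGroup.one_of_mem (rels := raagRelators Γ)
    (x := FreeGroup.of s * FreeGroup.of t * (FreeGroup.of s)⁻¹ * (FreeGroup.of t)⁻¹)
    ⟨s, t, h, rfl⟩
  rw [map_mul, map_mul, map_mul, map_inv, map_inv] at h1
  have h2 : (PresentedGroup.of s : RAAG Γ) * PresentedGroup.of t * (PresentedGroup.of s)⁻¹ *
    (PresentedGroup.of t)⁻¹ = 1 := h1
  rw [mul_inv_eq_one, mul_inv_eq_iff_eq_mul] at h2
  exact h2

theorem adj_blowUp {k : ℕ} (a b : Fin 5 × Fin k) :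
    (blowUp k).Adj a b ↔ Lib.MP_c91b70_al.C5.Adj a.1 b.1 := by
  have h : ∀ i j : Fin 5, (SimpleGraph.cycleGraph 5).Adj i j ↔
      Lib.MP_c91b70_al.C5.Adj i j := by
    intro i j
    rw [SimpleGraph.cycleGraph_adj]
    change _ ↔ (j = i + 1 ∨ i = j + 1)
    revert i j
    decide
  exact h a.1 b.1

theorem exists_racg_iso : ∃ φ : RACG (blowUp 3) ≃* Lib.MP_c91b70_al.RACG Lib.MP_c91b70_al.Gam15,
    ∀ v, φ (PresentedGroup.of v) = PresentedGroup.of (finProdFinEquiv v) := by
  apply exists_iso (finProdFinEquiv : Fin 5 × Fin 3 ≃ Fin (5 * 3))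
  · rintro r (⟨a, rfl⟩ | ⟨a, b, hab, rfl⟩)
    · rw [map_mul, FreeGroup.map.of, map_mul]
      exact Lib.MP_c91b70_al.QIInst.gW_sq _
    · have h1 := Lib.MP_c91b70_al.QIInst.gW_comm (a := finProdFinEquiv a) (b := finProdFinEquiv b)
        (by
          change Lib.MP_c91b70_al.C5.Adj (finProdFinEquiv a).divNat (finProdFinEquiv b).divNat
          have h2 : ∀ c : Fin 5 × Fin 3, (finProdFinEquiv c).divNat = c.1 := fun c =>
            congrArg Prod.fst (finProdFinEquiv.symm_apply_apply c)
          rw [h2, h2]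
          exact (adj_blowUp a b).1 hab)
      rw [map_mul, map_mul, map_mul, map_inv, map_inv, FreeGroup.map.of, FreeGroup.map.of,
        map_mul, map_mul, map_mul, map_inv, map_inv]
      change Lib.MP_c91b70_al.QIInst.gW _ * Lib.MP_c91b70_al.QIInst.gW _ *
        (Lib.MP_c91b70_al.QIInst.gW _)⁻¹ * (Lib.MP_c91b70_al.QIInst.gW _)⁻¹ = 1
      rw [h1.eq, mul_inv_cancel_right, mul_inv_cancel]
  · rintro r (⟨a, rfl⟩ | ⟨a, b, hab, rfl⟩)
    · rw [map_mul, FreeGroup.map.of, map_mul]
      exact racg_sq _ _
    · rw [map_pow, map_mul, FreeGroup.map.of, FreeGroup.map.of, map_pow, map_mul, pow_two]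
      have h1 := racg_comm (blowUp 3) (s := finProdFinEquiv.symm a) (t := finProdFinEquiv.symm b)
        ((adj_blowUp _ _).2 hab)
      change PresentedGroup.of (finProdFinEquiv.symm a) * PresentedGroup.of (finProdFinEquiv.symm b)
        * (PresentedGroup.of (finProdFinEquiv.symm a) *
          PresentedGroup.of (finProdFinEquiv.symm b)) = (1 : RACG (blowUp 3))
      calc _ = (PresentedGroup.of (finProdFinEquiv.symm a) *
            PresentedGroup.of (finProdFinEquiv.symm b)) *
            (PresentedGroup.of (finProdFinEquiv.symm b) *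
              PresentedGroup.of (finProdFinEquiv.symm a) : RACG (blowUp 3)) := by rw [h1]
        _ = PresentedGroup.of (finProdFinEquiv.symm a) *
            (PresentedGroup.of (finProdFinEquiv.symm b) *
              PresentedGroup.of (finProdFinEquiv.symm b)) *
              PresentedGroup.of (finProdFinEquiv.symm a) := by
              simp only [mul_assoc]
        _ = 1 := by rw [racg_sq, mul_one, racg_sq]

theorem exists_raag_iso {V : Type u} (Δ : SimpleGraph V) {m : ℕ} (Λ : SimpleGraph (Fin m))
    (e : V ≃ Fin m) (he : ∀ a b, Δ.Adj a b ↔ Λ.Adj (e a) (e b)) :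
    ∃ φ : RAAG Δ ≃* Lib.MP_c91b70_al.RAAG Λ,
      ∀ v, φ (PresentedGroup.of v) = PresentedGroup.of (e v) := by
  apply exists_iso e
  · rintro r ⟨a, b, hab, rfl⟩
    have h1 := PresentedGroup.one_of_mem (rels := Lib.MP_c91b70_al.raagRels Λ)
      (x := FreeGroup.of (e a) * FreeGroup.of (e b) * (FreeGroup.of (e a))⁻¹ *
        (FreeGroup.of (e b))⁻¹) ⟨e a, e b, (he a b).1 hab, rfl⟩
    rw [map_mul, map_mul, map_mul, map_inv, map_inv, FreeGroup.map.of, FreeGroup.map.of]
    exact h1
  · rintro r ⟨a, b, hab, rfl⟩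
    have h1 := PresentedGroup.one_of_mem (rels := raagRelators Δ)
      (x := FreeGroup.of (e.symm a) * FreeGroup.of (e.symm b) * (FreeGroup.of (e.symm a))⁻¹ *
        (FreeGroup.of (e.symm b))⁻¹) ⟨e.symm a, e.symm b, (he _ _).2 (by
          rw [Equiv.apply_symm_apply, Equiv.apply_symm_apply]; exact hab), rfl⟩
    rw [map_mul, map_mul, map_mul, map_inv, map_inv, FreeGroup.map.of, FreeGroup.map.of]
    exact h1

/-- The right-angled Coxeter group of the pentagon blown up by three independent points is not
commensurable to any right-angled Artin group, and there is a bijection from it to the right-angled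
Artin group of the pentagon blown up by two independent points which is bilipschitz, with
constant `8`, for the word metrics of the standard generators. -/
theorem result :
    (∀ (U : Type u) [Finite U] (Δ : SimpleGraph U),
      ¬ Commensurable (RACG (blowUp 3)) (RAAG Δ)) ∧
    ∃ f : RACG (blowUp 3) ≃ RAAG (blowUp 2), ∀ x y,
      wordDist (Set.range PresentedGroup.of) (f x) (f y) ≤
        8 * wordDist (Set.range PresentedGroup.of) x y ∧
      wordDist (Set.range PresentedGroup.of) x y ≤
        8 * wordDist (Set.range PresentedGroup.of) (f x) (f y) := by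
  obtain ⟨φ, hφ⟩ := exists_racg_iso
  constructor
  · intro U _ Δ hc
    obtain ⟨A, B, hA, hB, ⟨i⟩⟩ := hc
    obtain ⟨m, ⟨e⟩⟩ := Finite.exists_equiv_fin U
    obtain ⟨ψ, -⟩ := exists_raag_iso Δ (Δ.comap e.symm) e (fun a b => by
      rw [SimpleGraph.comap_adj, Equiv.symm_apply_apply, Equiv.symm_apply_apply])
    refine Lib.MP_c91b70_al.not_commensurable m (Δ.comap e.symm)
      ⟨A.map φ.toMonoidHom, B.map ψ.toMonoidHom, ?_, ?_, ⟨?_⟩⟩
    · rw [Subgroup.index_map_of_bijective φ.bijective]
      exact hA.index_ne_zero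
    · rw [Subgroup.index_map_of_bijective ψ.bijective]
      exact hB.index_ne_zero
    · exact (φ.subgroupMap A).symm.trans (i.trans (ψ.subgroupMap B))
  · obtain ⟨ψ, hψ⟩ := exists_raag_iso (blowUp 2) Lib.MP_c91b70_al.Lam10
      (finProdFinEquiv : Fin 5 × Fin 2 ≃ Fin (5 * 2)) (fun a b => by
        change _ ↔ Lib.MP_c91b70_al.C5.Adj (finProdFinEquiv a).divNat (finProdFinEquiv b).divNat
        have h2 : ∀ c : Fin 5 × Fin 2, (finProdFinEquiv c).divNat = c.1 := fun c =>
          congrArg Prod.fst (finProdFinEquiv.symm_apply_apply c)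
        rw [h2, h2]
        exact adj_blowUp a b)
    obtain ⟨F, hF1, hF2⟩ := Lib.MP_c91b70_al.exists_bilip
    refine ⟨φ.toEquiv.trans ((Equiv.inv _).trans (F.trans ((Equiv.inv _).trans
      ψ.symm.toEquiv))), ?_⟩
    intro x y
    have hψ' : ∀ z, ψ ((φ.toEquiv.trans ((Equiv.inv _).trans (F.trans ((Equiv.inv _).trans
      ψ.symm.toEquiv)))) z) = (F (φ z)⁻¹)⁻¹ := fun z => by
        change ψ (ψ.symm (F (φ z)⁻¹)⁻¹) = _
        rw [MulEquiv.apply_symm_apply]
    constructor
    · apply dist_le_of_word _ ψ hψ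
      rw [hψ', hψ']
      obtain ⟨w, hw, hn⟩ := word_of_dist _ φ hφ x y
      have h1 := hF1 ((φ x)⁻¹ * φ y) (φ y)⁻¹ _ ⟨w, hw, hn⟩
      rw [mul_inv_cancel_right] at h1
      rw [inv_inv]
      exact h1.mono (by omega)
    · apply dist_le_of_word _ φ hφ
      obtain ⟨w, hw, hn⟩ := word_of_dist _ ψ hψ ((φ.toEquiv.trans ((Equiv.inv _).trans
        (F.trans ((Equiv.inv _).trans ψ.symm.toEquiv)))) x) ((φ.toEquiv.trans ((Equiv.inv _).trans
        (F.trans ((Equiv.inv _).trans ψ.symm.toEquiv)))) y)
      rw [hψ', hψ', inv_inv] at hw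
      have h1 := hF2 _ (F (φ y)⁻¹) _ ⟨w, hw, hn⟩
      rw [inv_mul_cancel_right, Equiv.symm_apply_apply, Equiv.symm_apply_apply, inv_inv] at h1
      exact h1

end Pool.Agent.Results.MP_c91b70_al.BlownUpPentagon
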